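import Pool.Agent.Work.MP_4cf51e_co.Pin

/-! A connected plane straight-line graph on which the human cannot catch the puppy. -/

open Pool.Agent.Work.MP_4cf51e_co

theorem Pool.Agent.Results.MP_4cf51e_co.Escape.result :
    ∃ (n : ℕ) (G : SimpleGraph (Fin n)) (pos : Fin n → ℂ) (h₀ p₀ : ℂ) (δ : ℝ)
      (R : (NNReal → ℂ) → NNReal → ℂ),
      G.Connected ∧ PlaneEmb G pos ∧ h₀ ∈ drawing G pos ∧ p₀ ∈ drawing G pos ∧ 0 < δ ∧
      (∀ h h' t, Walk (drawing G pos) h₀ h → Walk (drawing G pos) h₀ h' →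
        Set.EqOn h h' (Set.Iic t) → Set.EqOn (R h) (R h') (Set.Iic t)) ∧
      (∀ h, Walk (drawing G pos) h₀ h →
        Follows (drawing G pos) p₀ h (R h) ∧ ∀ t, δ ≤ dist (h t) (R h t)) ∧
      ∀ S : Strategy (drawing G pos) h₀, ∃ p : NNReal → ℂ, p = R (S.walk p) ∧
        Follows (drawing G pos) p₀ (S.walk p) p ∧ ∀ t, δ ≤ dist (S.walk p t) (p t) := by
  obtain ⟨δ, h0, R, h1, h2, h3⟩ := pin_ok.escape pin_start
  refine ⟨72, pin.graph, pin.pos, pin.pos 66, pin.pp 4 (pin.pos 66), δ, R, pin_conn, pin_ok.emb,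
    Or.inl ⟨66, rfl⟩, pin_ok.mem_drawing.2 ⟨4, proj_mem (pin_ok.pne 4) pin_start.2.1.le⟩, h0, h1, h2,
    fun S => ?_⟩
  obtain ⟨p, e⟩ := h3 S
  have k := h2 _ (S.isWalk p)
  rw [← e] at k
  exact ⟨p, e, k⟩
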